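import Pool.Agent.K7.H56.Iface2
import Pool.Agent.H484R2.Zeta

/-!
# Convergence of the sum over the ideals (piece SUM of the project of helper56)
-/

set_option autoImplicit false

open Complex NumberField IsDedekindDomain

namespace Pool.Agent.K7.H73.GN

open Pool.Agent.K7.H56

theorem sum_ideals : SUM := by
  intro N _ _ t ht
  have h := (Pool.Agent.H484R2.hasSum_ideals N (s := (t : ℂ)) (by simpa using ht)).summable
  have h2 := Complex.reCLM.summable h
  refine h2.congr fun I => ?_
  have h3 : (0 : ℝ) ≤ (Ideal.absNorm I.1 : ℝ) := Nat.cast_nonneg _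
  have h4 : ((Ideal.absNorm I.1 : ℂ)) ^ (-(t : ℂ)) = (((Ideal.absNorm I.1 : ℝ) ^ (-t) : ℝ) : ℂ) := by
    rw [Complex.ofReal_cpow h3]
    push_cast
    rfl
  rw [h4]
  simp

end Pool.Agent.K7.H73.GN
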