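import Pool.Agent.K7.H73.GN.Geo

/-!
# The fundamental units (piece UNI of the project of helper56)
-/

set_option autoImplicit false
set_option linter.style.haveILetI false

open Complex NumberField IsDedekindDomain Module

namespace Pool.Agent.K7.H73.GN

open Pool.Agent.R430
open Pool.Agent.K7.H56
open Pool.Agent.Y688 (RR wR wR_coe wR_sq mem_RR w nsq)

section field
variable {N : Type} [Field N] [NumberField N] (ι : RR →+* 𝓞 N)

lemma inj_C (σ : 𝓞 N →+* ℂ) : Function.Injective σ := by
  rw [RingHom.injective_iff_ker_eq_bot]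
  by_contra hne
  have h1 := Ideal.absNorm_mem (RingHom.ker σ)
  rw [RingHom.mem_ker, map_natCast] at h1
  have h2 : Ideal.absNorm (RingHom.ker σ) = 0 := by exact_mod_cast h1
  exact hne (Ideal.absNorm_eq_zero_iff.1 h2)

/-- the extension of an embedding -/
noncomputable def ext (σ : 𝓞 N →+* ℂ) : N →+* ℂ := IsFractionRing.lift (inj_C σ)

lemma ext_apply (σ : 𝓞 N →+* ℂ) (x : 𝓞 N) : ext σ (x : N) = σ x :=
  IsFractionRing.lift_algebraMap (inj_C σ) x

lemma card_pl {r : ℕ} (hN : finrank ℚ N = 2 * (r + 1)) (ι : RR →+* 𝓞 N) :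
    InfinitePlace.nrRealPlaces N = 0 ∧ Fintype.card (InfinitePlace N) = r + 1 := by
  obtain ⟨ω, hω⟩ := om_ex ι
  have hr1 : InfinitePlace.nrRealPlaces N = 0 :=
    InfinitePlace.IsPrimitiveRoot.nrRealPlaces_eq_zero_of_two_lt (by norm_num)
      (prim3 hω)
  have h10 := InfinitePlace.card_add_two_mul_card_eq_rank N
  have h11 := InfinitePlace.card_eq_nrRealPlaces_add_nrComplexPlaces N
  refine ⟨hr1, ?_⟩
  omega

lemma mult_two {r : ℕ} (hN : finrank ℚ N = 2 * (r + 1)) (ι : RR →+* 𝓞 N)
    (v : InfinitePlace N) : v.mult = 2 := by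
  classical
  obtain ⟨h1, -⟩ := card_pl hN ι
  have h2 : ¬ v.IsReal := by
    intro hv
    have h3 : 0 < InfinitePlace.nrRealPlaces N := Fintype.card_pos_iff.2 ⟨⟨v, hv⟩⟩
    omega
  rw [InfinitePlace.mult, if_neg h2]

lemma pl_inj {r : ℕ} (D : @GN (𝓞 N) _ ι.toAlgebra r) :
    Function.Injective (fun i => InfinitePlace.mk (ext (@GN.σ (𝓞 N) _ ι.toAlgebra r D i))) := by
  letI := ι.toAlgebra
  intro i j hij
  by_contra hne
  have hw : ∀ i, ext (@GN.σ (𝓞 N) _ ι.toAlgebra r D i) ((ι wR : 𝓞 N) : N) = w := by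
    intro i
    rw [ext_apply]
    exact (D.hσ i wR).trans wR_coe
  rcases InfinitePlace.mk_eq_iff.1 hij with h | h
  · refine D.det (Matrix.det_zero_of_row_eq hne ?_)
    funext k
    have h1 := congrArg (fun f : N →+* ℂ => f (D.b k : N)) h
    simp only [ext_apply] at h1
    exact h1
  · have h1 := congrArg (fun f : N →+* ℂ => f ((ι wR : 𝓞 N) : N)) h
    simp only [ComplexEmbedding.conjugate_coe_eq, hw] at h1
    exact w_ne h1

theorem uni : UNI := by
  classical
  intro N _ _ ι r hN D
  letI := ι.toAlgebra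
  obtain ⟨hr0, hcard⟩ := card_pl hN ι
  have hrank : Units.rank N = r := by
    unfold Units.rank
    rw [hcard]
    omega
  let φ : Fin (r + 1) ≃ InfinitePlace N := Equiv.ofBijective
    (fun i => InfinitePlace.mk (ext (D.σ i)))
    ((Fintype.bijective_iff_injective_and_card _).2 ⟨pl_inj ι D, by rw [Fintype.card_fin, hcard]⟩)
  let e : {v // v ≠ φ 0} ≃ Fin (Units.rank N) :=
    ((φ.symm.subtypeEquiv (q := fun i => i ≠ 0) (fun v => by
      rw [Ne, Ne, ← Equiv.symm_apply_eq φ])).trans (finSuccAboveEquiv 0).symm).trans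
      (finCongr hrank.symm)
  have he : ∀ (b : Fin r) (h : φ b.succ ≠ φ 0), e ⟨φ b.succ, h⟩ = Fin.cast hrank.symm b := by
    intro b h
    have h1 : (φ.symm.subtypeEquiv (p := fun v => v ≠ φ 0) (q := fun i => i ≠ 0) (fun v => by
      rw [Ne, Ne, ← Equiv.symm_apply_eq φ])) ⟨φ b.succ, h⟩ = finSuccAboveEquiv 0 b := by
      apply Subtype.ext
      rw [Equiv.subtypeEquiv_apply]
      simp [finSuccAboveEquiv_apply]
    show finCongr hrank.symm ((finSuccAboveEquiv 0).symm _) = _
    rw [h1, Equiv.symm_apply_apply]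
    rfl
  refine ⟨fun b => Units.fundSystem N (Fin.cast hrank.symm b), ?_, ?_⟩
  · let g : (Fin r → ℤ) ≃ (Fin (Units.rank N) → ℤ) :=
      (Equiv.arrowCongr (finCongr hrank.symm) (Equiv.refl ℤ))
    have hg : ∀ (f : Fin r → ℤ) (b : Fin r), g f (Fin.cast hrank.symm b) = f b := by
      intro f b
      rfl
    have hprod : ∀ f : Fin r → ℤ, ∏ b, Units.fundSystem N (Fin.cast hrank.symm b) ^ f b =
        ∏ i, Units.fundSystem N i ^ g f i := by
      intro f
      rw [← Equiv.prod_comp (finCongr hrank.symm) (fun i => Units.fundSystem N i ^ g f i)]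
      rfl
    constructor
    · intro p q hpq
      simp only [hprod] at hpq
      obtain ⟨ζe, -, hu⟩ := Units.exist_unique_eq_mul_prod N
        ((p.1 : (𝓞 N)ˣ) * ∏ i, Units.fundSystem N i ^ g p.2 i)
      have h1 := hu (p.1, g p.2) rfl
      have h2 := hu (q.1, g q.2) hpq
      have h3 := h1.trans h2.symm
      obtain ⟨h4, h5⟩ := Prod.mk.inj h3
      exact Prod.ext h4 (g.injective h5)
    · intro x
      obtain ⟨ζe, h1, -⟩ := Units.exist_unique_eq_mul_prod N x
      refine ⟨(ζe.1, g.symm ζe.2), ?_⟩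
      simp only [hprod, Equiv.apply_symm_apply]
      exact h1.symm
  · intro h0
    have h1 := Units.finrank_mul_regulator_eq_det N (φ 0) e
    have h2 : (0 : ℝ) < finrank ℚ N * Units.regulator N :=
      mul_pos (by exact_mod_cast finrank_pos) (Units.regulator_pos N)
    rw [h1, abs_pos] at h2
    refine h2 ?_
    rw [← Matrix.det_submatrix_equiv_self φ]
    have h3 : (Matrix.submatrix (Matrix.of (fun i w : InfinitePlace N ↦
        if h : i = φ 0 then (w.mult : ℝ) else w.mult *
          (w (Units.fundSystem N (e ⟨i, h⟩))).log)) φ φ) =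
        Matrix.diagonal (Fin.cons 2 (fun _ => 1)) * (Matrix.of (Fin.cons (fun _ => 1)
        (fun b i => Real.log (Complex.normSq (D.σ i
          (Units.fundSystem N (Fin.cast hrank.symm b) : 𝓞 N)))) :
        Fin (r + 1) → Fin (r + 1) → ℝ)) := by
      ext i j
      rw [Matrix.diagonal_mul, Matrix.submatrix_apply, Matrix.of_apply, Matrix.of_apply]
      refine Fin.cases ?_ (fun b => ?_) i
      · rw [dif_pos rfl, mult_two hN ι]
        simp
      · have hb : φ b.succ ≠ φ 0 := by
          rw [Ne, φ.injective.eq_iff]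
          exact Fin.succ_ne_zero b
        rw [dif_neg hb, he b hb, mult_two hN ι]
        simp only [Fin.cons_succ, one_mul]
        have h4 : (φ j) ((Units.fundSystem N (Fin.cast hrank.symm b) : 𝓞 N) : N) =
            ‖D.σ j (Units.fundSystem N (Fin.cast hrank.symm b) : 𝓞 N)‖ := by
          show InfinitePlace.mk (ext (D.σ j)) _ = _
          rw [InfinitePlace.apply, ext_apply]
        rw [h4, Complex.normSq_eq_norm_sq, Real.log_pow]
    rw [h3, Matrix.det_mul]
    rw [h0, mul_zero]

end field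

end Pool.Agent.K7.H73.GN
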