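import Pool.Agent.K7.H56.Iface2

/-!
# The lattice data of a number field over the Eisenstein integers (piece GEO of the project of
helper56)
-/

set_option autoImplicit false
set_option linter.unusedSectionVars false
set_option linter.style.haveILetI false

open Complex NumberField IsDedekindDomain Module
open scoped PeriodPair nonZeroDivisors

namespace Pool.Agent.K7.H73.GN

open Pool.Agent.R430
open Pool.Agent.K7.H56
open Pool.Agent.Y688 (RR wR wR_coe wR_sq mem_RR w nsq)
open Pool.Agent.Y696 (eis)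

/-! ### a determinant -/

lemma det_blocks {n : Type*} [Fintype n] [DecidableEq n] (A B : Matrix n n ℂ) (a c : ℂ) :
    (Matrix.fromBlocks A B (a • A) (c • B)).det = (c - a) ^ Fintype.card n * (A.det * B.det) := by
  have h : Matrix.fromBlocks A B (a • A) (c • B) =
      Matrix.fromBlocks 1 0 (a • (1 : Matrix n n ℂ)) 1 * Matrix.fromBlocks A B 0 ((c - a) • B) := by
    rw [Matrix.fromBlocks_multiply]
    congr 1
    · simp
    · simp
    · simp
    · simp [sub_smul]
  rw [h, Matrix.det_mul, Matrix.det_fromBlocks_zero₁₂, Matrix.det_fromBlocks_zero₂₁, Matrix.det_one,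
    Matrix.det_smul]
  ring

/-! ### the basis of `RR` -/

lemma li_w : LinearIndependent ℤ ![(1 : RR), wR] := by
  rw [LinearIndependent.pair_iff]
  intro a b hab
  have h1 : ((a : RR) + (b : RR) * wR : RR) = 0 := by
    rw [zsmul_eq_mul, zsmul_eq_mul, mul_one] at hab
    exact hab
  have h2 := congrArg (fun z : RR => Complex.normSq (z : ℂ)) h1
  push_cast at h2
  rw [wR_coe] at h2
  have h3 := nsq (a : ℝ) (b : ℝ)
  push_cast at h3
  rw [h3] at h2
  have h0 : Complex.normSq ((0 : RR) : ℂ) = 0 := by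
    have : ((0 : RR) : ℂ) = 0 := rfl
    rw [this, map_zero]
  rw [map_zero] at h2
  have h4 : (a : ℝ) = 0 ∧ (b : ℝ) = 0 := by
    constructor <;> nlinarith [sq_nonneg (2 * (a : ℝ) - b), sq_nonneg (b : ℝ),
      sq_nonneg (a : ℝ), sq_nonneg ((a : ℝ) - 2 * b)]
  exact ⟨by exact_mod_cast h4.1, by exact_mod_cast h4.2⟩

lemma sp_w : ⊤ ≤ Submodule.span ℤ (Set.range ![(1 : RR), wR]) := by
  intro x _
  obtain ⟨a, b, hab⟩ := (mem_RR x).1 x.2
  have hx : x = a • (1 : RR) + b • wR := Subtype.ext (by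
    rw [zsmul_eq_mul, zsmul_eq_mul, mul_one]
    push_cast
    rw [wR_coe]
    exact hab)
  rw [hx]
  refine Submodule.add_mem _ (Submodule.smul_mem _ _ (Submodule.subset_span ⟨0, rfl⟩))
    (Submodule.smul_mem _ _ (Submodule.subset_span ⟨1, rfl⟩))

/-- the basis `1, w` -/
noncomputable def bR : Basis (Fin 2) ℤ RR := Basis.mk li_w sp_w

lemma bR0 : bR 0 = 1 := by
  unfold bR
  rw [Basis.mk_apply]
  rfl

lemma bR1 : bR 1 = wR := by
  unfold bR
  rw [Basis.mk_apply]
  rfl

section field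
variable {N : Type} [Field N] [NumberField N] (ι : RR →+* 𝓞 N)

lemma ι_inj : Function.Injective ι := by
  rw [injective_iff_map_eq_zero]
  intro x hx
  obtain ⟨φ⟩ := (inferInstance : Nonempty (N →+* ℂ))
  rcases emb_w (ι := ι) φ with h | h
  · have h1 := emb_ext h x
    rw [hx] at h1
    apply Subtype.ext
    rw [← h1]
    simp
  · have h2 : ((starRingEnd ℂ).comp φ) ((ι wR : 𝓞 N) : N) = w := by
      rw [RingHom.comp_apply, h, Complex.conj_conj]
    have h1 := emb_ext h2 x
    rw [hx] at h1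
    apply Subtype.ext
    rw [← h1]
    simp

lemma fin_RR : letI := ι.toAlgebra; Module.Finite RR (𝓞 N) := by
  letI := ι.toAlgebra
  exact Module.Finite.of_restrictScalars_finite ℤ RR (𝓞 N)

lemma tf_RR : letI := ι.toAlgebra; Module.IsTorsionFree RR (𝓞 N) := by
  letI := ι.toAlgebra
  constructor
  intro r hr α β hab
  have hsm : ∀ (r : RR) (α : 𝓞 N), r • α = ι r * α := fun r α => Algebra.smul_def r α
  simp only [hsm] at hab
  refine mul_left_cancel₀ ?_ hab
  rw [Ne, map_eq_zero_iff _ (ι_inj ι)]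
  exact hr.ne_zero

lemma free_RR : letI := ι.toAlgebra; Module.Free RR (𝓞 N) := by
  letI := ι.toAlgebra
  haveI := fin_RR ι
  haveI := tf_RR ι
  exact Module.free_of_finite_type_torsion_free'

lemma finrank_RR {r : ℕ} (hN : finrank ℚ N = 2 * (r + 1)) :
    letI := ι.toAlgebra; finrank RR (𝓞 N) = r + 1 := by
  letI := ι.toAlgebra
  haveI := fin_RR ι
  haveI := free_RR ι
  obtain ⟨h1, h2, h3⟩ := rank_RR
  have h4 := Module.finrank_mul_finrank ℤ RR (𝓞 N)
  have h5 := RingOfIntegers.rank N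
  rw [h3, h5, hN] at h4
  omega

/-! ### the embeddings -/

/-- the embeddings over `RR` -/
abbrev Em : Type := {τ : N →+* ℂ // τ ((ι wR : 𝓞 N) : N) = w}

lemma w_ne : (starRingEnd ℂ) w ≠ w := w_ne_conj

open Classical in
/-- all the embeddings -/
noncomputable def emE : (Em ι ⊕ Em ι) ≃ (N →+* ℂ) := by
  refine Equiv.ofBijective (Sum.elim (fun τ => τ.1) (fun τ => (starRingEnd ℂ).comp τ.1)) ⟨?_, ?_⟩
  · rintro (a | a) (b | b) hab
    · exact congrArg Sum.inl (Subtype.ext hab)
    · exfalso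
      have h1 : a.1 = (starRingEnd ℂ).comp b.1 := hab
      have h2 := congrArg (fun φ : N →+* ℂ => φ ((ι wR : 𝓞 N) : N)) h1
      simp only [RingHom.comp_apply] at h2
      rw [a.2, b.2] at h2
      exact w_ne h2.symm
    · exfalso
      have h1 : (starRingEnd ℂ).comp a.1 = b.1 := hab
      have h2 := congrArg (fun φ : N →+* ℂ => φ ((ι wR : 𝓞 N) : N)) h1
      simp only [RingHom.comp_apply] at h2
      rw [a.2, b.2] at h2
      exact w_ne h2
    · refine congrArg Sum.inr (Subtype.ext ?_)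
      have h1 : (starRingEnd ℂ).comp a.1 = (starRingEnd ℂ).comp b.1 := hab
      have h2 := congrArg (fun φ : N →+* ℂ => (starRingEnd ℂ).comp φ) h1
      simp only [conj_conj_comp] at h2
      exact h2
  · intro φ
    rcases emb_w (ι := ι) φ with h | h
    · exact ⟨Sum.inl ⟨φ, h⟩, rfl⟩
    · refine ⟨Sum.inr ⟨(starRingEnd ℂ).comp φ, by
        rw [RingHom.comp_apply, h, Complex.conj_conj]⟩, ?_⟩
      exact conj_conj_comp φ

lemma card_em {r : ℕ} (hN : finrank ℚ N = 2 * (r + 1)) : Nat.card (Em ι) = r + 1 := by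
  classical
  have h1 := Nat.card_congr (emE ι)
  rw [Nat.card_sum] at h1
  have h2 : Nat.card (N →+* ℂ) = finrank ℚ N := by
    rw [Nat.card_eq_fintype_card, Embeddings.card N ℂ]
  rw [h2, hN] at h1
  omega

/-- numbering -/
noncomputable def emF {r : ℕ} (hN : finrank ℚ N = 2 * (r + 1)) : Fin (r + 1) ≃ Em ι :=
  (Finite.equivFinOfCardEq (card_em ι hN)).symm

/-- the embedding of number `i` -/
noncomputable def τf {r : ℕ} (hN : finrank ℚ N = 2 * (r + 1)) (i : Fin (r + 1)) : N →+* ℂ :=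
  (emF ι hN i).1

lemma τf_w {r : ℕ} (hN : finrank ℚ N = 2 * (r + 1)) (i : Fin (r + 1)) :
    τf ι hN i ((ι wR : 𝓞 N) : N) = w := (emF ι hN i).2

/-- all the embeddings, numbered -/
noncomputable def emG {r : ℕ} (hN : finrank ℚ N = 2 * (r + 1)) :
    (Fin (r + 1) ⊕ Fin (r + 1)) ≃ (N →+* ℂ) :=
  (Equiv.sumCongr (emF ι hN) (emF ι hN)).trans (emE ι)

lemma emG_inl {r : ℕ} (hN : finrank ℚ N = 2 * (r + 1)) (i : Fin (r + 1)) :
    emG ι hN (Sum.inl i) = τf ι hN i := rfl

lemma emG_inr {r : ℕ} (hN : finrank ℚ N = 2 * (r + 1)) (i : Fin (r + 1)) :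
    emG ι hN (Sum.inr i) = (starRingEnd ℂ).comp (τf ι hN i) := rfl

/-- the two copies -/
def sE (X : Type) : X ⊕ X ≃ Fin 2 × X :=
  (Equiv.boolProdEquivSum X).symm.trans (Equiv.prodCongr finTwoEquiv.symm (Equiv.refl _))

lemma sE_inl {X : Type} (x : X) : sE X (Sum.inl x) = (0, x) := rfl

lemma sE_inr {X : Type} (x : X) : sE X (Sum.inr x) = (1, x) := rfl

/-- the discriminant -/
theorem disc_eq {r : ℕ} (hN : finrank ℚ N = 2 * (r + 1)) :
    letI := ι.toAlgebra
    ∀ b : Basis (Fin (r + 1)) RR (𝓞 N),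
    (((starRingEnd ℂ) w - w) ^ (r + 1) *
      ((Matrix.of fun i j => τf ι hN i (b j : N)).det *
        (starRingEnd ℂ) ((Matrix.of fun i j => τf ι hN i (b j : N)).det))) ^ 2 =
      (discr N : ℂ) := by
  classical
  letI := ι.toAlgebra
  intro b
  let c : Basis (Fin (r + 1) ⊕ Fin (r + 1)) ℤ (𝓞 N) := (bR.smulTower b).reindex (sE _).symm
  have hc1 : ∀ j, c (Sum.inl j) = b j := by
    intro j
    rw [Basis.reindex_apply, Equiv.symm_symm, sE_inl, Basis.smulTower_apply, bR0, one_smul]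
  have hc2 : ∀ j, c (Sum.inr j) = ι wR * b j := by
    intro j
    rw [Basis.reindex_apply, Equiv.symm_symm, sE_inr, Basis.smulTower_apply, bR1,
      Algebra.smul_def]
    rfl
  have hm : ∀ (φ : N →+* ℂ) (j : Fin (r + 1)), φ ((ι wR * b j : 𝓞 N) : N) =
      φ ((ι wR : 𝓞 N) : N) * φ (b j : N) := by
    intro φ j
    rw [← map_mul]
    rfl
  have h1 := discr_eq_discr N c
  have h2 : (Algebra.discr ℚ (c.localizationLocalization ℚ ℤ⁰ N) : ℚ) = discr N := by
    rw [Algebra.discr_localizationLocalization ℤ ℤ⁰ N c, h1]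
    rfl
  have h3 := Algebra.discr_eq_det_embeddingsMatrixReindex_pow_two ℚ ℂ
    (c.localizationLocalization ℚ ℤ⁰ N) ((emG ι hN).trans (RingHom.equivRatAlgHom N ℂ))
  rw [h2] at h3
  have h4 : Algebra.embeddingsMatrixReindex ℚ ℂ (c.localizationLocalization ℚ ℤ⁰ N)
      ((emG ι hN).trans (RingHom.equivRatAlgHom N ℂ)) =
      Matrix.fromBlocks (Matrix.of fun i j => τf ι hN i (b j : N)).transpose
        ((Matrix.of fun i j => τf ι hN i (b j : N)).map (starRingEnd ℂ)).transpose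
        (w • (Matrix.of fun i j => τf ι hN i (b j : N)).transpose)
        ((starRingEnd ℂ) w • ((Matrix.of fun i j => τf ι hN i (b j : N)).map
          (starRingEnd ℂ)).transpose) := by
    ext x y
    have h5 : Algebra.embeddingsMatrixReindex ℚ ℂ (c.localizationLocalization ℚ ℤ⁰ N)
      ((emG ι hN).trans (RingHom.equivRatAlgHom N ℂ)) x y = emG ι hN y ((c x : 𝓞 N) : N) := by
      simp only [Algebra.embeddingsMatrixReindex, Matrix.reindex_apply, Matrix.submatrix_apply,
        Algebra.embeddingsMatrix_apply, Equiv.symm_symm, Equiv.coe_refl, id, Equiv.refl_symm,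
        Basis.localizationLocalization_apply]
      rfl
    rw [h5]
    rcases x with x | x <;> rcases y with y | y
    · rw [hc1, emG_inl]
      rfl
    · rw [hc1, emG_inr]
      rfl
    · rw [hc2, emG_inl, Matrix.fromBlocks_apply₂₁, Matrix.smul_apply, Matrix.transpose_apply,
        Matrix.of_apply, hm, τf_w, smul_eq_mul]
    · rw [hc2, emG_inr, Matrix.fromBlocks_apply₂₂, Matrix.smul_apply, Matrix.transpose_apply,
        Matrix.map_apply, Matrix.of_apply, RingHom.comp_apply, hm, τf_w, map_mul, smul_eq_mul]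
  rw [h4, det_blocks, Matrix.det_transpose, Matrix.det_transpose, Fintype.card_fin] at h3
  have h6 : ((Matrix.of fun i j => τf ι hN i (b j : N)).map (starRingEnd ℂ)).det =
      (starRingEnd ℂ) ((Matrix.of fun i j => τf ι hN i (b j : N)).det) := by
    rw [RingHom.map_det]
    rfl
  rw [h6] at h3
  rw [← h3]
  simp

/-! ### the discriminant is odd -/

lemma odd_discr (h : Unr2 N) : ¬ (2 : ℤ) ∣ discr N := by
  rw [not_dvd_discr_iff_forall_mem N (𝓞 N) Int.prime_two]
  intro P hP h2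
  have hne : P ≠ ⊥ := by
    rintro rfl
    rw [Ideal.mem_bot] at h2
    have h3 : ((2 : ℤ) : 𝓞 N) ≠ 0 := by
      exact_mod_cast (two_ne_zero : (2 : 𝓞 N) ≠ 0)
    exact h3 h2
  have hmax : (Ideal.span {(2 : ℤ)}).IsMaximal :=
    PrincipalIdealRing.isMaximal_of_irreducible Int.prime_two.irreducible
  have hunder : Ideal.span {(2 : ℤ)} = (P.under ℤ) := by
    refine hmax.eq_of_le (Ideal.IsPrime.ne_top inferInstance) ?_
    rw [Ideal.span_singleton_le_iff_mem, Ideal.mem_comap]
    exact h2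
  haveI : P.LiesOver (Ideal.span {(2 : ℤ)}) := ⟨hunder⟩
  have hmap : Ideal.map (algebraMap ℤ (𝓞 N)) (Ideal.span {(2 : ℤ)}) = Ideal.span {(2 : 𝓞 N)} := by
    rw [Ideal.map_span, Set.image_singleton]
    simp
  have hb : Ideal.map (algebraMap ℤ (𝓞 N)) (Ideal.span {(2 : ℤ)}) ≠ ⊥ := by
    rw [hmap, Ne, Ideal.span_singleton_eq_bot]
    exact two_ne_zero
  have hval := h ⟨P, hP, hne⟩ (by exact_mod_cast h2)
  have hcast : (2 : N) = algebraMap (𝓞 N) N 2 := (map_ofNat (algebraMap (𝓞 N) N) 2).symm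
  rw [hcast, HeightOneSpectrum.valuation_of_algebraMap] at hval
  have hd1 := (HeightOneSpectrum.intValuation_le_pow_iff_dvd ⟨P, hP, hne⟩ (2 : 𝓞 N) 1).1
    (by rw [hval]; exact le_of_eq (by norm_num))
  have hd2 : ¬ P ^ 2 ∣ Ideal.span {(2 : 𝓞 N)} := by
    intro hd
    have h3 := (HeightOneSpectrum.intValuation_le_pow_iff_dvd ⟨P, hP, hne⟩ (2 : 𝓞 N) 2).2 hd
    rw [hval, WithZero.exp_le_exp] at h3
    norm_num at h3
  rw [← Ideal.ramificationIdx_eq_one_iff,
    Ideal.IsDedekindDomain.ramificationIdx_eq_multiplicity (Ideal.span {(2 : ℤ)}) P hb, hmap]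
  refine multiplicity_eq_of_dvd_of_not_dvd ?_ hd2
  exact hd1

/-! ### the lattice data -/

lemma det_ne {r : ℕ} (hN : finrank ℚ N = 2 * (r + 1)) :
    letI := ι.toAlgebra
    ∀ b : Basis (Fin (r + 1)) RR (𝓞 N),
    (Matrix.of fun i j => τf ι hN i (b j : N)).det ≠ 0 := by
  letI := ι.toAlgebra
  intro b h0
  have h1 := disc_eq ι hN b
  rw [h0] at h1
  have h2 : (discr N : ℂ) = 0 := by
    rw [← h1]
    ring
  exact discr_ne_zero N (by exact_mod_cast h2)

section val
variable {Γ : Type} [LinearOrderedCommGroupWithZero Γ] {v : Valuation ℂ Γ}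

lemma v_int_le {x : ℂ} (hx : IsIntegral ℤ x) : v x ≤ 1 := by
  have h1 : IsIntegral v.integer x := hx.tower_top
  exact ((Valuation.integer.integers v).isIntegral_iff_v_le_one).1 h1

lemma det_int {r : ℕ} (hN : finrank ℚ N = 2 * (r + 1)) (b : Fin (r + 1) → 𝓞 N) :
    IsIntegral ℤ (Matrix.of fun i j => τf ι hN i (b j : N)).det := by
  refine IsIntegral.det fun i j => ?_
  rw [Matrix.of_apply]
  have h1 : IsIntegral ℤ (b j : N) := (b j).isIntegral_coe
  exact h1.map (τf ι hN i).toIntAlgHom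

lemma conj_sq : ((starRingEnd ℂ) w - w) ^ 2 = ((-3 : ℤ) : ℂ) := by
  rw [Pool.Agent.Y688.conj_w]
  push_cast
  linear_combination 4 * Pool.Agent.Y688.w_sq

lemma sq_one {g : Γ} (h : g ^ 2 = 1) : g = 1 :=
  (pow_eq_one_iff_of_nonneg zero_le two_ne_zero).1 h

lemma det_v {r : ℕ} (hN : finrank ℚ N = 2 * (r + 1)) (hv : v 2 < 1) (h : Unr2 N) :
    letI := ι.toAlgebra
    ∀ b : Basis (Fin (r + 1)) RR (𝓞 N),
    v (Matrix.of fun i j => τf ι hN i (b j : N)).det = 1 := by
  letI := ι.toAlgebra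
  intro b
  have h1 := disc_eq ι hN b
  have h2 : v (discr N : ℂ) = 1 := Pool.Agent.Y688.v_odd hv (by
    rw [← Int.not_even_iff_odd, even_iff_two_dvd]
    exact odd_discr h)
  have h3 : v ((starRingEnd ℂ) w - w) = 1 := by
    have h4 : v ((starRingEnd ℂ) w - w) ^ 2 = 1 := by
      rw [← map_pow, conj_sq]
      exact Pool.Agent.Y688.v_odd hv (by decide)
    exact sq_one h4
  rw [← h1, map_pow, map_mul, map_pow, h3, one_pow, one_mul, map_mul] at h2
  have h5 := sq_one h2
  have h6 := v_int_le (v := v) (det_int ι hN b)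
  have h7 := v_int_le (v := v) (Pool.Agent.Y688.conj_int (det_int ι hN b))
  refine le_antisymm h6 ?_
  by_contra hlt
  push Not at hlt
  have h8 : v (Matrix.of fun i j => τf ι hN i (b j : N)).det *
      v ((starRingEnd ℂ) (Matrix.of fun i j => τf ι hN i (b j : N)).det) < 1 :=
    mul_lt_one_of_lt_of_le hlt h7
  exact h8.ne h5

end val

/-! ### the relative norm of a principal ideal -/

lemma rN_norm (α : 𝓞 N) :
    rN (iE ι) (Ideal.span {α}) =
      Ideal.span {tE (@Algebra.norm RR (𝓞 N) _ _ ι.toAlgebra α)} := by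
  letI i1 := ι.toAlgebra
  haveI := fin_RR ι
  haveI := free_RR ι
  letI i2 := (iE ι).toAlgebra
  haveI := inst_fin (iE ι)
  haveI := inst_tf (iE ι)
  refine (Ideal.relNorm_singleton eis α).trans ?_
  congr 2
  haveI : Module.Free eis (𝓞 N) := Module.free_of_finite_type_torsion_free'
  rw [Algebra.intNorm_eq_norm]
  exact (Algebra.norm_eq_of_ringEquiv (RingEquiv.subringCongr RRe : RR ≃+* eis) (by
    ext x
    rfl) α).symm

theorem geo : GEO := by
  intro N _ _ ι r hN
  letI := ι.toAlgebra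
  haveI := fin_RR ι
  haveI := free_RR ι
  have hrk : finrank RR (𝓞 N) = r + 1 := finrank_RR ι hN
  let b : Basis (Fin (r + 1)) RR (𝓞 N) := Module.finBasisOfFinrankEq RR (𝓞 N) hrk
  refine ⟨⟨⟨b, fun i => (τf ι hN i).comp (algebraMap (𝓞 N) N), fun i a => ?_, ?_⟩, ?_⟩,
    rN_norm ι⟩
  · exact emb_ext (τf_w ι hN i) a
  · exact det_ne ι hN b
  · intro h2 Γ _ v hv
    exact det_v ι hN hv h2 b

end field

end Pool.Agent.K7.H73.GN
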